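import Pool.Agent.Helper478_Kwise.G

/-!
# The central limit theorem for the decimal digits of `π / m`

Let `m` be taken at random in `(N, 2 N]`, let `g` be any real function of a decimal digit which is not
constant, with mean `μ` and variance `σ²` for a uniform random digit, and let `W_1, …, W_r` be `r`
disjoint windows of places between `(1 + δ) log₁₀ N` and `(log N) ^ (1 + γ)` which depend on `N` in any way,
with lengths `L_1, …, L_r → ∞` (as slowly as one likes). Let `S_i` be the sum of `g` over the decimal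
digits of `π / m` at the places in `W_i`. Then `(S_i - μ L_i) / (σ √L_i)`, `i ≤ r`, converge jointly in
distribution to `r` independent standard normal variables. For `g` the indicator function of a digit this is
the central limit theorem for the number of occurrences of this digit; since `g` is arbitrary, one obtains
the joint law of the numbers of all ten digits.

Proof. The digits at any `k ≤ (log N) ^ (3 / 4)` places are almost independent
(`Pool.Agent.Helper478.Kwise.kwi`, by Vinogradov's mean value theorem and the method of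
Vinogradov and Korobov). In the characteristic function the exponential is replaced by its Taylor polynomial
of degree `≤ (log N) ^ (1 / 2)`.
-/

set_option autoImplicit false

open Filter Topology

namespace Pool.Agent.Results.MP_57632f_nt.GaussianDigitSums

/-- The decimal digit of `y ≥ 0` at the place `p` after the point. -/
noncomputable def digit (y : ℝ) (p : ℕ) : ℕ := ⌊y * 10 ^ p⌋.toNat % 10

/-- The sum of `g` over the decimal digits of `y` at the places `u < p ≤ u + L`. -/
noncomputable def digitSum (g : ℕ → ℝ) (y : ℝ) (u L : ℕ) : ℝ := ∑ p ∈ Finset.Ioc u (u + L), g (digit y p)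

/-- The mean of `g` over the ten digits. -/
noncomputable def mean (g : ℕ → ℝ) : ℝ := (∑ d ∈ Finset.range 10, g d) / 10

/-- The variance of `g` over the ten digits. -/
noncomputable def variance (g : ℕ → ℝ) : ℝ := (∑ d ∈ Finset.range 10, (g d - mean g) ^ 2) / 10

lemma variance_pos (g : ℕ → ℝ) (hg : ∃ d < 10, g d ≠ g 0) : 0 < variance g := by
  unfold variance
  apply div_pos _ (by norm_num)
  by_contra hcon
  push Not at hcon
  have h0 : ∑ d ∈ Finset.range 10, (g d - mean g) ^ 2 = 0 :=
    le_antisymm hcon (Finset.sum_nonneg fun d _ => sq_nonneg _)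
  rw [Finset.sum_eq_zero_iff_of_nonneg fun d _ => sq_nonneg _] at h0
  obtain ⟨d, hd, hne⟩ := hg
  apply hne
  have h1 := h0 d (Finset.mem_range.2 hd)
  have h2 := h0 0 (by simp)
  rw [sq_eq_zero_iff] at h1 h2
  linarith

/-- **Central limit theorem for the decimal digits of `π / m`.** -/
theorem result : ∃ γ : ℝ, 0 < γ ∧ ∀ δ : ℝ, 0 < δ → ∀ g : ℕ → ℝ, (∃ d < 10, g d ≠ g 0) →
    ∀ r : ℕ, 1 ≤ r → ∀ u L : ℕ → Fin r → ℕ,
    (∀ᶠ N : ℕ in atTop, ∀ i, (1 + δ) * Real.logb 10 N ≤ u N i ∧
      ((u N i + L N i : ℕ) : ℝ) ≤ (Real.log N) ^ (1 + γ)) →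
    (∀ᶠ N : ℕ in atTop, ∀ i i', i ≠ i' → Disjoint (Set.Ioc (u N i) (u N i + L N i))
      (Set.Ioc (u N i') (u N i' + L N i'))) →
    (∀ i, Tendsto (fun N => L N i) atTop atTop) → ∀ t : Fin r → ℝ,
    Tendsto (fun N : ℕ => ({m : ℕ | N < m ∧ m ≤ 2 * N ∧ ∀ i,
      (digitSum g (Real.pi / m) (u N i) (L N i) - mean g * L N i) / √(variance g * L N i) ≤ t i}.ncard : ℝ) / N)
      atTop (𝓝 (∏ i, (ProbabilityTheory.gaussianReal 0 1).real (Set.Iic (t i)))) := by
  classical
  obtain ⟨γ, h1, h⟩ := Pool.Agent.Helper478.Kwise.clt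
  refine ⟨γ, h1, fun δ hδ g hg r hr u L hu hdis hL t => ?_⟩
  haveI : Nonempty (Fin r) := ⟨⟨0, hr⟩⟩
  have hL1 : ∀ᶠ N in atTop, ∀ i, 1 ≤ L N i := by
    rw [eventually_all]
    exact fun i => (hL i).eventually_ge_atTop 1
  obtain ⟨v, hv⟩ : ∃ v : ℝ, v = variance g := ⟨_, rfl⟩
  have hv0 : 0 < v := by rw [hv]; exact variance_pos g hg
  obtain ⟨μ, hμ⟩ : ∃ μ : ℝ, μ = mean g := ⟨_, rfl⟩
  have hsv : √v ≠ 0 := (Real.sqrt_pos.2 hv0).ne'
  have hm : ∑ d ∈ Finset.range 10, g d = 10 * μ := by
    rw [hμ, mean]; ring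
  have hvar : ∑ d ∈ Finset.range 10, (g d - μ) ^ 2 = 10 * v := by
    rw [hv, variance, ← hμ]; ring
  have h2 := h (-1) le_rfl (by norm_num) (by norm_num) Real.pi Real.pi_pos.ne' δ hδ 10 (by norm_num)
    (fun d => (g d.toNat - μ) / √v)
    (by
      have e1 : ∀ d ∈ Finset.range 10, (g ((d : ℤ)).toNat - μ) / √v = (g d - μ) / √v := fun d _ => by
        rw [Int.toNat_natCast]
      rw [Finset.sum_congr rfl e1, ← Finset.sum_div, Finset.sum_sub_distrib, hm]
      simp)
    (by
      have e1 : ∀ d ∈ Finset.range 10, ((g ((d : ℤ)).toNat - μ) / √v) ^ 2 = (g d - μ) ^ 2 / v :=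
        fun d _ => by
          rw [Int.toNat_natCast, div_pow, Real.sq_sqrt hv0.le]
      rw [Finset.sum_congr rfl e1, ← Finset.sum_div, hvar]
      push_cast
      field_simp) (Fin r) u L
    (by
      filter_upwards [hu, eventually_ge_atTop 1] with N hN hN1 i
      refine ⟨?_, (hN i).2⟩
      have hN0 : (0 : ℝ) < N := by exact_mod_cast (by omega : 0 < N)
      have h2 : (N : ℝ) ^ (1 + δ) ≤ (10 : ℝ) ^ (u N i) := by
        have h3 := (hN i).1
        rw [← Real.rpow_natCast]
        have h4 : (N : ℝ) ^ (1 + δ) = (10 : ℝ) ^ ((1 + δ) * Real.logb 10 N) := by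
          rw [mul_comm, Real.rpow_mul (by norm_num), Real.rpow_logb (by norm_num) (by norm_num) hN0]
        rw [h4]
        exact Real.rpow_le_rpow_of_exponent_le (by norm_num) h3
      rw [Real.rpow_neg_one]
      have h5 : (N : ℝ) ^ (1 + δ) = N ^ δ * N := by
        rw [Real.rpow_add hN0, Real.rpow_one, mul_comm]
      rw [h5] at h2
      push_cast
      rw [← div_eq_mul_inv, le_div_iff₀ hN0]
      exact h2)
    (by
      filter_upwards [hdis, hL1] with N hN hN1 i i' hne
      have h3 := hN i i' hne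
      rw [Set.disjoint_left] at h3
      by_contra hcon
      push Not at hcon
      have h4 := hN1 i
      have h5 := hN1 i'
      refine h3 (a := min (u N i + L N i) (u N i' + L N i')) ?_ ?_
      · rw [Set.mem_Ioc]; omega
      · rw [Set.mem_Ioc]; omega) hL t
  refine h2.congr' ?_
  filter_upwards [hL1] with N hN1
  congr 2
  rw [← Set.ncard_coe_finset]
  congr 1
  ext m
  simp only [Finset.coe_filter, Finset.mem_Ioc, Set.mem_setOf_eq]
  rw [and_assoc]
  refine and_congr_right fun _ => and_congr_right fun _ => forall_congr' fun i => ?_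
  have hL0 : (0 : ℝ) < L N i := by exact_mod_cast hN1 i
  have e0 : Real.pi * (m : ℝ) ^ (-1 : ℝ) = Real.pi / m := by
    rw [Real.rpow_neg_one, div_eq_mul_inv]
  have e1 : ∀ p : ℕ, (⌊Real.pi * (m : ℝ) ^ (-1 : ℝ) * ((10 : ℕ) : ℝ) ^ p⌋ % ((10 : ℕ) : ℤ)).toNat =
      digit (Real.pi / m) p := by
    intro p
    unfold digit
    rw [e0]
    push_cast
    have h3 : 0 ≤ ⌊Real.pi / m * 10 ^ p⌋ := Int.floor_nonneg.2 (by positivity)
    obtain ⟨k, hk⟩ := Int.eq_ofNat_of_zero_le h3
    rw [hk]
    simp only [Int.toNat_natCast]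
    omega
  have e2 : ∑ p ∈ Finset.Ioc (u N i) (u N i + L N i),
      (g (⌊Real.pi * (m : ℝ) ^ (-1 : ℝ) * ((10 : ℕ) : ℝ) ^ p⌋ % ((10 : ℕ) : ℤ)).toNat - μ) / √v =
      (digitSum g (Real.pi / m) (u N i) (L N i) - μ * L N i) / √v := by
    rw [← Finset.sum_div, Finset.sum_sub_distrib, Finset.sum_const, Nat.card_Ioc]
    unfold digitSum
    simp_rw [e1]
    congr 2
    rw [nsmul_eq_mul]
    rw [show u N i + L N i - u N i = L N i by omega]
    ring
  rw [e2, ← hv, ← hμ, Real.sqrt_mul hv0.le, div_div]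

end Pool.Agent.Results.MP_57632f_nt.GaussianDigitSums
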