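import Pool.Agent.Helper478_Lit.PCZ

/-!
# Poissonian pair correlations for the digits of `π / n`

For a positive integer `n` the number `π` is normal in base `10` if and only if `π / n` is. Let `g` be a real
function which is analytic at `0` and let `β_n = n ^ θ g (n ^ (-s))`, where `t ^ θ g (t ^ (-s))` is not a
polynomial for large `t`; for instance `β_n = π / n` (see `pi_family`), `√n`, `√(2 n ^ 2 + 1)`, `e ^ (1 / n)`.

We show: for almost all `n` in every short interval `(N, N + N ^ ρ]` the `K` points `b ^ i β_n` mod 1,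
`u < i ≤ u + K`, have Poissonian pair correlations, at all distances `δ` from `1 / 2` down to
`K ^ (-2 + ε)`: the number of ordered pairs of different places `i`, `j` in the window for which `b ^ i β_n` and
`b ^ j β_n` have distance less than `δ` modulo one is `2 δ K ^ 2 (1 + O (K ^ (-ε / 32)))`, as for `K` independent
random points; and no pair has a distance less than `K ^ (-2 - ε)`. So the smallest distance is
`K ^ (-2 + O (ε))`. Here `b ≥ 2` is any base, and the window is any window of places with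
`C log N ≤ u log b`, `(u + K) log b ≤ (log N) ^ (1 + γ)` and `K ≥ K₀`; so it lies mostly far beyond the place
to which the number of bits of `n` corresponds.

Proof. The variance over `n` of the pair sums `∑ (f ((b ^ i - b ^ j) b ^ (u + 1) β_n) - ∫ f)` for a trigonometric
polynomial `f` which majorizes or minorizes the indicator function of the arc `‖x‖ < δ`. The exponential sum over `n`
belonging to two pairs is very small unless the indices match in pairs up to `O (log K)`; this uses Vinogradov's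
mean value theorem with growing degree. There are `O (K ^ 2 (log K) ^ 2)` exceptional pairs of pairs.
-/

set_option autoImplicit false

open Filter Topology

namespace Pool.Agent.Results.MP_57632f_nt.PairCorrelation

/-- the distance to the nearest integer -/
noncomputable def nint (x : ℝ) : ℝ := |x - round x|

/-- The ordered pairs `(i, j)` of different places `u < i, j ≤ u + K` for which the points `b ^ i β` and
`b ^ j β` have distance less than `δ` modulo one. -/
def closePairs (β : ℝ) (b u K : ℕ) (δ : ℝ) : Set (ℕ × ℕ) :=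
  {p | (u < p.1 ∧ p.1 ≤ u + K) ∧ (u < p.2 ∧ p.2 ≤ u + K) ∧ p.1 ≠ p.2 ∧
    nint ((b : ℝ) ^ p.1 * β - (b : ℝ) ^ p.2 * β) < δ}

/-- The pair correlations of the points `b ^ i β`, `u < i ≤ u + K`, are Poissonian at all distances: for all
`δ` between `K ^ (-2 + ε)` and `1 / 2` the number of close pairs differs from `2 δ K ^ 2` by at most
`K ^ (- ε / 32) δ K ^ 2`, and there is no pair with distance less than `K ^ (-2 - ε)`. -/
def PoissonPairs (β : ℝ) (b u K : ℕ) (ε : ℝ) : Prop :=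
  (∀ δ : ℝ, (K : ℝ) ^ (-2 + ε) ≤ δ → δ ≤ 1 / 2 →
    |((closePairs β b u K δ).ncard : ℝ) - 2 * δ * K ^ 2| ≤ (K : ℝ) ^ (-(ε / 32)) * (δ * K ^ 2)) ∧
  closePairs β b u K ((K : ℝ) ^ (-2 - ε)) = ∅

lemma card_eq (β : ℝ) (b u K : ℕ) (δ : ℝ) :
    (closePairs β b u K δ).ncard =
      Pool.Agent.Helper478.Lit.Xlt b K δ ((b : ℝ) ^ (u + 1) * β) := by
  classical
  have h1 : closePairs β b u K δ = ((((Finset.range K).offDiag.filter fun p =>
      Pool.Agent.Helper478.Lit.dist1 (Pool.Agent.Helper478.Lit.pw b p * ((b : ℝ) ^ (u + 1) * β)) < δ).image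
      fun p => (u + 1 + p.1, u + 1 + p.2) : Finset (ℕ × ℕ)) : Set (ℕ × ℕ)) := by
    have key : ∀ i j : ℕ, (Pool.Agent.Helper478.Lit.pw b (i, j) : ℝ) * ((b : ℝ) ^ (u + 1) * β) =
        (b : ℝ) ^ (u + 1 + i) * β - (b : ℝ) ^ (u + 1 + j) * β := by
      intro i j
      unfold Pool.Agent.Helper478.Lit.pw
      push_cast
      ring
    ext ⟨i, j⟩
    simp only [closePairs, Set.mem_setOf_eq, Finset.coe_image, Set.mem_image, Finset.mem_coe,
      Finset.mem_filter, Finset.mem_offDiag, Finset.mem_range, Prod.mk.injEq]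
    constructor
    · rintro ⟨⟨a1, a2⟩, ⟨a3, a4⟩, a5, a6⟩
      refine ⟨(i - (u + 1), j - (u + 1)), ⟨⟨by omega, by omega, by omega⟩, ?_⟩, by omega, by omega⟩
      rw [key, show u + 1 + (i - (u + 1)) = i by omega, show u + 1 + (j - (u + 1)) = j by omega]
      exact a6
    · rintro ⟨⟨i', j'⟩, ⟨⟨a1, a2, a3⟩, a4⟩, a5, a6⟩
      dsimp only at a1 a2 a3 a4 a5 a6
      rw [key, a5, a6] at a4
      exact ⟨⟨by omega, by omega⟩, ⟨by omega, by omega⟩, by omega, a4⟩
  rw [h1, Set.ncard_coe_finset, Finset.card_image_of_injective]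
  · rfl
  · rintro ⟨i, j⟩ ⟨i', j'⟩ h
    simp only [Prod.mk.injEq] at h ⊢
    omega

theorem result : ∃ γ : ℝ, 0 < γ ∧ ∀ (θ s : ℝ), 0 < s → s ≤ 1 → ∀ g : ℝ → ℝ, AnalyticAt ℝ g 0 →
    (¬ ∃ P : Polynomial ℝ, ∀ᶠ t : ℝ in atTop, t ^ θ * g (t ^ (-s)) = P.eval t) →
    ∀ ρ : ℝ, 0 < ρ → ρ ≤ 1 → ∃ C : ℝ, ∀ ε : ℝ, 0 < ε → ε < 1 → ∃ (N₀ K₀ : ℕ), ∀ (N M b u K : ℕ),
      N₀ ≤ N → (N : ℝ) ^ ρ ≤ M → M ≤ N → 2 ≤ b → C * Real.log N ≤ u * Real.log b →
      ((u : ℝ) + K) * Real.log b ≤ (Real.log N) ^ (1 + γ) → K₀ ≤ K →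
      (({n : ℕ | N < n ∧ n ≤ N + M ∧
        ¬ PoissonPairs ((n : ℝ) ^ θ * g ((n : ℝ) ^ (-s))) b u K ε}.ncard : ℕ) : ℝ) ≤
        M * (K : ℝ) ^ (-(ε / 32)) := by
  classical
  obtain ⟨γ, hγ0, h⟩ := Pool.Agent.Helper478.Lit.pc
  refine ⟨γ, hγ0, ?_⟩
  intro θ s hs0 hs1 g hg hpoly ρ hρ0 hρ1
  obtain ⟨C, hC⟩ := h θ s hs0 hs1 g hg hpoly ρ hρ0 hρ1
  refine ⟨C, ?_⟩
  intro ε hε0 hε1
  obtain ⟨N₀, K₀, hNK⟩ := hC ε hε0 hε1
  refine ⟨N₀, K₀, ?_⟩
  intro N M b u K hN hM1 hM2 hb hu hK hK₀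
  refine le_trans ?_ (hNK N M b u K hN hM1 hM2 hb hu hK hK₀)
  rw [← Set.ncard_coe_finset]
  refine Nat.cast_le.2 (le_trans (Set.ncard_le_ncard ?_ ((Finset.finite_toSet _).image (fun n => N + n)))
    (Set.ncard_image_le (Finset.finite_toSet _)))
  rintro n ⟨a1, a2, a3⟩
  refine ⟨n - N, ?_, by simp only; omega⟩
  rw [Finset.mem_coe, Finset.mem_filter, Finset.mem_Ioc]
  refine ⟨⟨by omega, by omega⟩, ?_⟩
  have e1 : (N : ℝ) + ((n - N : ℕ) : ℝ) = n := by
    rw [Nat.cast_sub a1.le]; ring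
  rw [e1]
  rintro ⟨c1, c2⟩
  apply a3
  refine ⟨?_, ?_⟩
  · intro δ h1 h2
    rw [card_eq]
    exact c1 δ h1 h2
  · have hfin : (closePairs ((n : ℝ) ^ θ * g ((n : ℝ) ^ (-s))) b u K ((K : ℝ) ^ (-2 - ε))).Finite := by
      apply Set.Finite.subset (Finset.finite_toSet (Finset.range (u + K + 1) ×ˢ Finset.range (u + K + 1)))
      rintro ⟨i, j⟩ ⟨⟨d1, d2⟩, ⟨d3, d4⟩, -⟩
      simp only at d1 d2 d3 d4
      rw [Finset.mem_coe, Finset.mem_product, Finset.mem_range, Finset.mem_range]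
      exact ⟨by simp only; omega, by simp only; omega⟩
    rw [← card_eq, Set.ncard_eq_zero hfin] at c2
    exact c2

/-- Example: `β_n = π / n` satisfies the hypotheses of `result` (`θ = -1`, `s = 1`, `g = π`). -/
theorem pi_family : AnalyticAt ℝ (fun _ : ℝ => Real.pi) 0 ∧
    ¬ ∃ P : Polynomial ℝ, ∀ᶠ t : ℝ in atTop, t ^ (-1 : ℝ) * Real.pi = P.eval t := by
  refine ⟨analyticAt_const, ?_⟩
  rintro ⟨P, hP⟩
  have h1 : ∀ᶠ t : ℝ in atTop, (Polynomial.X * P).eval t = (Polynomial.C Real.pi).eval t := by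
    filter_upwards [hP, eventually_gt_atTop 0] with t ht ht0
    rw [Polynomial.eval_mul, ← ht, Polynomial.eval_X, Polynomial.eval_C, Real.rpow_neg_one]
    field_simp
  obtain ⟨t₀, ht₀⟩ := eventually_atTop.1 h1
  have h2 : Polynomial.X * P = Polynomial.C Real.pi :=
    Polynomial.eq_of_infinite_eval_eq _ _ ((Set.Ici_infinite t₀).mono fun t ht => ht₀ t ht)
  have h3 := congrArg (fun Q => Polynomial.eval 0 Q) h2
  simp only [Polynomial.eval_mul, Polynomial.eval_X, zero_mul, Polynomial.eval_C] at h3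
  exact Real.pi_ne_zero h3.symm

end Pool.Agent.Results.MP_57632f_nt.PairCorrelation
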