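import Pool.Agent.Helper478_Poisson.Main

/-!
# The Poisson law for long words of digits of `π / m` and of `x m ^ θ`

Let `m` be taken at random in `(N, 2 N]` and let `b ≥ 2` be a base. For each `N` let a window of `n` consecutive
places up to `(log N) ^ (1 + γ)` and a word `w` of `l` digits be given, which depend on `N`
in any way, such that `w` has no self-overlap, `n → ∞` and `n / b ^ l → λ > 0`. Then the number of places in
the window at which the word `w` stands in the expansion of `π / m` (or of `x m ^ θ`, `-1 ≤ θ < 1`, `θ ≠ 0`, for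
instance of `√m`) is Poisson distributed with parameter `λ` in the limit.

Proof. The factorial moments of the number of occurrences are computed with the almost independence of the
digits at any `k ≤ (log N) ^ (3 / 4)` places (`Pool.Agent.Helper478.Kwise.kwi`, by Vinogradov's mean value
theorem and the method of Vinogradov and Korobov), and Bonferroni's inequalities give the law.
-/

set_option autoImplicit false

open Filter Topology

namespace Pool.Agent.Results.MP_57632f_nt.PoissonRareWords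

/-- The number of the places `u < p ≤ u + n` such that the digits of `y` in base `b` at the places
`p, p + 1, …, p + l - 1` after the point are `w 0, w 1, …, w (l - 1)`. -/
noncomputable def occurrences (b : ℕ) (w : ℕ → ℕ) (l : ℕ) (y : ℝ) (u n : ℕ) : ℕ :=
  {p : ℕ | u < p ∧ p ≤ u + n ∧ ∀ t < l, ⌊y * (b : ℝ) ^ (p + t)⌋ % (b : ℤ) = (w t : ℤ)}.ncard

/-- **The Poisson law for long words of digits of `x m ^ θ`** (`π / m` for `x = π`, `θ = -1`). -/
theorem result : ∃ γ : ℝ, 0 < γ ∧ ∀ θ : ℝ, -1 ≤ θ → θ < 1 → θ ≠ 0 → ∀ x : ℝ, x ≠ 0 → ∀ δ : ℝ, 0 < δ →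
    ∀ b : ℕ, 2 ≤ b → ∀ (u n l : ℕ → ℕ) (w : ℕ → ℕ → ℕ),
    (∀ᶠ N : ℕ in atTop, (N : ℝ) ^ δ ≤ (b : ℝ) ^ (u N) * (N : ℝ) ^ θ ∧
      ((u N + n N + l N : ℕ) : ℝ) ≤ (Real.log N) ^ (1 + γ)) →
    (∀ᶠ N in atTop, ∀ t < l N, w N t < b) →
    (∀ᶠ N in atTop, ∀ i, 0 < i → i < l N → ∃ t, i + t < l N ∧ w N (i + t) ≠ w N t) →
    Tendsto n atTop atTop → ∀ lam : ℝ, 0 < lam →
    Tendsto (fun N => (n N : ℝ) / (b : ℝ) ^ l N) atTop (𝓝 lam) → ∀ j : ℕ,
    Tendsto (fun N : ℕ => ({m : ℕ | N < m ∧ m ≤ 2 * N ∧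
      occurrences b (w N) (l N) (x * (m : ℝ) ^ θ) (u N) (n N) = j}.ncard : ℝ) / N) atTop
      (𝓝 (Real.exp (-lam) * lam ^ j / j.factorial)) := by
  classical
  obtain ⟨γ, h1, h⟩ := Pool.Agent.Helper478.Poisson.pois
  refine ⟨γ, h1, fun θ hθ1 hθ2 hθ0 x hx δ hδ b hb u n l w hu hw hov hn lam hlam0 hlam j => ?_⟩
  have h2 := h θ hθ1 hθ2 hθ0 x hx δ hδ b hb u n l w hu hw hov hn lam hlam0 hlam j
  refine h2.congr fun N => ?_
  congr 2
  rw [← Set.ncard_coe_finset]
  congr 1
  ext m
  simp only [Finset.coe_filter, Finset.mem_Ioc, Set.mem_setOf_eq]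
  rw [and_assoc]
  refine and_congr_right fun _ => and_congr_right fun _ => ?_
  have h3 : ((Finset.Ioc (u N) (u N + n N)).filter fun p => ∀ t < l N,
      Pool.Agent.Helper478.Kwise.dg b (x * (m : ℝ) ^ θ) (p + t) = (w N t : ℤ)).card =
      occurrences b (w N) (l N) (x * (m : ℝ) ^ θ) (u N) (n N) := by
    unfold occurrences
    rw [← Set.ncard_coe_finset]
    congr 1
    ext p
    simp only [Finset.coe_filter, Finset.mem_Ioc, Set.mem_setOf_eq]
    rw [and_assoc]
    rfl
  rw [h3]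

end Pool.Agent.Results.MP_57632f_nt.PoissonRareWords
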