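import Pool.Agent.Helper478_Kwise.F

/-!
# The decimal digits of the numbers `π / m`, with square root error term

For a positive integer `m` the number `π` is normal in base `10` if and only if `π / m` is.
For almost all integers `m ≤ N` (all but `N / (log N) ^ A` of them, `A` arbitrary) the following holds
for all windows of places `u < i ≤ u + L` between `(1 + δ) log₁₀ N` and `(log N) ^ (1 + γ)` at once: each word
of `l` decimal digits ends at `L / 10 ^ l + O(√(L log log N))` of the places of the window, in the decimal
expansion of `π / m`. Here `γ > 0` is an absolute constant. In particular windows of length a large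
multiple of `log log N` have nearly the right frequencies of digits. The integer `m` has only about
`log N` bits, but the digits are controlled up to the place `(log N) ^ (1 + γ)`.

Proof. The digits of `π / m` at any `k ≤ (log N) ^ (3 / 4)` places of this range are almost
independent if `m` is taken at random in `(N, 2 N]` (`Pool.Agent.Helper478.Kwise.kwi`). For this the indicator
functions of the digits are replaced by trigonometric polynomials of degree `exp (2 (log N) ^ (1 - 3 γ))`; after
multiplying out one has exponential sums `∑ e (F / m)` with `F ≤ exp ((log N) ^ (1 + 2 γ))`, for which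
Vinogradov's mean value theorem and the method of Vinogradov and Korobov save a factor
`exp (2 (log N) ^ (1 - 3 γ))`. Then the moments of order `C log log N` of the numbers of digits are compared
with those of independent digits.
-/

set_option autoImplicit false

open Filter

namespace Pool.Agent.Results.MP_57632f_nt.SquareRootErrorQuotients

/-- The number of places `u < i ≤ u + L` at which the word of `l` decimal digits of value `v` ends in
the decimal expansion of `y > 0`: the digits of `y` after the point at the places `i - l + 1, …, i` (at places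
`≤ 0` these are digits of the integral part) are the `l` digits of `v < 10 ^ l`, that is
`⌊y 10 ^ i⌋ ≡ v` modulo `10 ^ l`. -/
noncomputable def wordCount (y : ℝ) (l v u L : ℕ) : ℕ :=
  {i : ℕ | u < i ∧ i ≤ u + L ∧ ⌊y * 10 ^ i⌋ % (10 ^ l : ℤ) = v}.ncard

/-- There is an absolute constant `γ > 0` such that for all `δ > 0`, all word lengths `l ≥ 1` and
all `A > 0` there is a `C` such that for all large `N`, for all but at most `N / (log N) ^ A` of the
integers `N < m ≤ 2 N` the number `π / m` has this property: for all `u`, `L` with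
`(1 + δ) log₁₀ N ≤ u` and `u + L ≤ (log N) ^ (1 + γ)` and all `v < 10 ^ l` the number of the places
`u < i ≤ u + L` at which the word of `l` decimal digits of value `v` ends differs from `L / 10 ^ l` by at
most `C √(L log log N)`. -/
theorem result : ∃ γ : ℝ, 0 < γ ∧ ∀ δ : ℝ, 0 < δ → ∀ l : ℕ, 1 ≤ l →
    ∀ A : ℝ, 0 < A → ∃ C : ℝ, ∀ᶠ N : ℕ in atTop,
      (({m : ℕ | N < m ∧ m ≤ 2 * N ∧ ∃ u L v : ℕ, v < 10 ^ l ∧ (1 + δ) * Real.logb 10 N ≤ u ∧
        ((u + L : ℕ) : ℝ) ≤ (Real.log N) ^ (1 + γ) ∧
        C * √(L * Real.log (Real.log N)) <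
          |(wordCount (Real.pi / m) l v u L : ℝ) - L / 10 ^ l|}.ncard : ℕ) : ℝ) ≤
            N / (Real.log N) ^ A := by
  obtain ⟨γ, h1, h⟩ := Pool.Agent.Helper478.Kwise.words
  refine ⟨γ, h1, fun δ hδ l hl A hA => ?_⟩
  obtain ⟨C, hC, N₀, hN₀⟩ := h (-1) le_rfl (by norm_num) (by norm_num) Real.pi Real.pi_ne_zero δ hδ A hA
    10 l (by norm_num) hl
  refine ⟨C, ?_⟩
  filter_upwards [eventually_ge_atTop N₀, eventually_ge_atTop 1] with N hN hN1
  refine le_trans ?_ (hN₀ N hN)
  have hN0 : (0 : ℝ) < N := by exact_mod_cast (by omega : 0 < N)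
  have hl10 : 0 < Real.log 10 := Real.log_pos (by norm_num)
  refine Nat.cast_le.2 (Set.ncard_le_ncard ?_ ((Set.finite_Ioc N (2 * N)).subset fun n hn => ⟨hn.1, hn.2.1⟩))
  rintro m ⟨a1, a2, u, L, v, a3, a4, a5, a6⟩
  refine ⟨a1, a2, u, L, v, a3, ?_, a5, ?_⟩
  · have e1 : (N : ℝ) ^ (1 + δ) ≤ (10 : ℝ) ^ u := by
      rw [← Real.rpow_natCast 10 u, Real.rpow_def_of_pos hN0, Real.rpow_def_of_pos (by norm_num : (0 : ℝ) < 10)]
      apply Real.exp_le_exp.2
      have e2 : Real.logb 10 N * Real.log 10 = Real.log N := by
        rw [Real.logb, div_mul_cancel₀ _ hl10.ne']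
      calc Real.log N * (1 + δ) = (1 + δ) * Real.logb 10 N * Real.log 10 := by
            rw [mul_assoc, e2]; ring
        _ ≤ u * Real.log 10 := by gcongr
        _ = _ := mul_comm _ _
    have e3 : (N : ℝ) ^ δ = (N : ℝ) ^ (1 + δ) * (N : ℝ) ^ (-1 : ℝ) := by
      rw [← Real.rpow_add hN0]; congr 1; ring
    rw [e3]
    push_cast
    gcongr
  · have h2 : wordCount (Real.pi / m) l v u L =
        ((Finset.Ioc u (u + L)).filter fun i : ℕ =>
          ⌊Real.pi * (m : ℝ) ^ (-1 : ℝ) * ((10 : ℕ) : ℝ) ^ i⌋ % ((10 ^ l : ℕ) : ℤ) = v).card := by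
      unfold wordCount
      rw [← Set.ncard_coe_finset]
      congr 1
      ext i
      simp only [Set.mem_ofPred_eq, Finset.coe_filter, Finset.mem_Ioc]
      rw [Real.rpow_neg_one, ← div_eq_mul_inv]
      push_cast
      tauto
    rw [h2] at a6
    push_cast at a6 ⊢
    exact a6

end Pool.Agent.Results.MP_57632f_nt.SquareRootErrorQuotients
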